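import Pool.Agent.H.MP_8c5903_an.A

set_option autoImplicit false

open MeasureTheory Set

namespace Pool.Agent.Results.MP_8c5903_an.No

noncomputable abbrev L : Type := Lp ℝ 2 (volume : Measure (ℝ × ℝ))

noncomputable def fn (f : L) : ℝ × ℝ → ℝ := f

def I (j k : ℤ) : Set ℝ := Ico (k * 2 ^ j) ((k + 1) * 2 ^ j)

noncomputable def haar (j k : ℤ) (x : ℝ) : ℝ :=
  (√(2 ^ j))⁻¹ * ((I (j - 1) (2 * k + 1)).indicator 1 x - (I (j - 1) (2 * k)).indicator 1 x)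

noncomputable def Th (j k : ℤ) : ℝ → ℝ := if k % 2 = 0 then -haar j (k + 1) else haar j (k - 1)

def Shift (S : L → L) : Prop := ∀ (j k l m : ℤ) (p q : L),
  (fn p =ᵐ[volume] fun x => haar j k x.1 * haar l m x.2) →
  (fn q =ᵐ[volume] fun x => Th j k x.1 * Th l m x.2) → S p = q

def IsShift (S : L → L) : Prop := (∃ T : L →L[ℝ] L, ⇑T = S) ∧ Shift S

theorem result : (∃ S, IsShift S) ∧ ∀ S, IsShift S → ∀ η : ℝ, η < 1 → ∃ V : Set (ℝ × ℝ),
    MeasurableSet V ∧ 0 < volume V ∧ volume V < ⊤ ∧ ∀ f : L, fn f =ᵐ[volume] V.indicator 1 →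
      η * volume.real V < ∫ x in V, fn (S f) x ^ 2 :=
  Pool.Agent.H.MP_8c5903_an.main

end Pool.Agent.Results.MP_8c5903_an.No
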